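import Pool.Agent.H20.TU.Words
import Pool.Agent.H20.TU.Weil

/-!
Codimension two suffices for products of curves over finite fields.
-/

namespace Pool.Agent.H20.TU

variable {K : Type*} [Field K]

/-- `a` and `b` agree up to a root of unity. -/
def Sim (a b : K) : Prop := ∃ N : ℕ, N ≠ 0 ∧ a ^ N = b ^ N

theorem Sim.refl (a : K) : Sim a a := ⟨1, one_ne_zero, rfl⟩

theorem Sim.symm {a b : K} (h : Sim a b) : Sim b a := by
  obtain ⟨N, h1, h2⟩ := h
  exact ⟨N, h1, h2.symm⟩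

theorem Sim.mul {a b c d : K} (h : Sim a b) (h' : Sim c d) : Sim (a * c) (b * d) := by
  obtain ⟨N, h1, h2⟩ := h
  obtain ⟨M, h3, h4⟩ := h'
  refine ⟨N * M, mul_ne_zero h1 h3, ?_⟩
  rw [mul_pow, mul_pow, pow_mul, h2, ← pow_mul, mul_comm N M, pow_mul c, h4, ← pow_mul]

theorem Sim.trans {a b c : K} (h : Sim a b) (h' : Sim b c) : Sim a c := by
  obtain ⟨N, h1, h2⟩ := h
  obtain ⟨M, h3, h4⟩ := h'
  refine ⟨N * M, mul_ne_zero h1 h3, ?_⟩
  rw [pow_mul, h2, ← pow_mul, mul_comm N M, pow_mul b, h4, ← pow_mul]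

theorem Sim.inv {a b : K} (h : Sim a b) : Sim a⁻¹ b⁻¹ := by
  obtain ⟨N, h1, h2⟩ := h
  exact ⟨N, h1, by rw [inv_pow, inv_pow, h2]⟩

theorem Sim.pow {a b : K} (h : Sim a b) (k : ℕ) : Sim (a ^ k) (b ^ k) := by
  obtain ⟨N, h1, h2⟩ := h
  exact ⟨N, h1, by rw [← pow_mul, mul_comm, pow_mul, h2, ← pow_mul, mul_comm, pow_mul]⟩

theorem Sim.of_pow {a b : K} {k : ℕ} (hk : k ≠ 0) (h : Sim (a ^ k) (b ^ k)) : Sim a b := by
  obtain ⟨N, h1, h2⟩ := h
  exact ⟨k * N, mul_ne_zero hk h1, by rw [pow_mul, pow_mul, h2]⟩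

variable {ι : Type*} {q : ℕ} {d : ι → ℕ} {a : ι → K} {ω : ι → ι → K} {up : ι → ι}
  {A : ∀ n, Submodule K (Tens K ι n)} {H E : Set ι} {r : K}

/-- The number `g` is an eigenvalue of Frobenius on `H`. -/
def Occurs (a : ι → K) (H : Set ι) (g : K) : Prop := ∃ i ∈ H, a i = g

/-- Dual eigenvectors. -/
theorem exists_dual (hC : Curve q d a ω H E) {i : ι} (hi : i ∈ H) :
    ∃ j ∈ H, a i * a j = (q : K) ∧ ω i j ≠ 0 := by
  obtain ⟨j, hj, hij⟩ := hC.nondeg i hi
  exact ⟨j, hj, mul_right_cancel₀ hij (hC.pairing i hi j hj), hij⟩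

/-- The letter `i` is in `H` and has eigenvalue `r * ξ` up to a root of unity. -/
def Letter (a : ι → K) (H : Set ι) (r ξ : K) (i : ι) : Prop := i ∈ H ∧ Sim (a i) (r * ξ)

/-- All words in letters with these eigenvalues are in the family. -/
def P (A : ∀ n, Submodule K (Tens K ι n)) (a : ι → K) (H : Set ι) (r : K)
    (s : Multiset K) : Prop :=
  ∀ t : Multiset ι, Multiset.Rel (Letter a H r) s t → Good A t

theorem P_zero (hA : Closed d ω up A) : P A a H r 0 := by
  intro t ht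
  rw [Multiset.rel_zero_left] at ht
  rw [ht]
  exact good_zero hA

theorem P_add (hA : Closed d ω up A) {s t : Multiset K} (hs : P A a H r s) (ht : P A a H r t) :
    P A a H r (s + t) := by
  intro u hu
  obtain ⟨u1, u2, h1, h2, rfl⟩ := Multiset.rel_add_left.1 hu
  exact good_add hA (hs _ h1) (ht _ h2)

theorem P_congr {ξ η : K} (h : Sim ξ η) {s : Multiset K} (hs : P A a H r (ξ ::ₘ s)) :
    P A a H r (η ::ₘ s) := by
  intro u hu
  obtain ⟨v, t, ⟨hv, hs1⟩, ht, rfl⟩ := Multiset.rel_cons_left.1 hu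
  exact hs _ (Multiset.rel_cons_left.2
    ⟨v, t, ⟨hv, hs1.trans ((Sim.refl r).mul h.symm)⟩, ht, rfl⟩)

/-- Tate classes on products of two curves are in the family. -/
def Pairs (A : ∀ n, Submodule K (Tens K ι n)) (a : ι → K) (H : Set ι) (q : ℕ) : Prop :=
  ∀ i ∈ H, ∀ j ∈ H, Sim (a i * a j) (q : K) → Good A {i, j}

/-- Tate classes of codimension two on products of three curves and a supersingular elliptic
curve. -/
def Quads (A : ∀ n, Submodule K (Tens K ι n)) (a : ι → K) (H E : Set ι) (q : ℕ) : Prop :=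
  ∀ x ∈ H, ∀ y ∈ H, ∀ z ∈ H, ∀ e ∈ E, Sim (a x * a y * a z * a e) ((q : K) ^ 2) →
    Good A {x, y, z, e}

theorem exists_E (hC : Curve q d a ω H E) (hr : r ^ 2 = (q : K)) :
    ∃ e ∈ E, ∃ e' ∈ E, Sim (a e) r ∧ Sim (a e') r ∧ ω e e' ≠ 0 := by
  have h1 : ∀ e ∈ E, Sim (a e) r := by
    intro e he
    refine Sim.of_pow two_ne_zero ?_
    obtain ⟨m, hm, h⟩ := hC.supersingular e he
    exact ⟨m, hm.ne', by rw [← pow_mul, h, hr]⟩
  obtain ⟨e, he⟩ := hC.nonempty
  obtain ⟨e', he', h⟩ := hC.nondegE e he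
  exact ⟨e, he, e', he', h1 e he, h1 e' he', h⟩

theorem P_contract (hA : Closed d ω up A) (hC : Curve q d a ω H E) (hr : r ^ 2 = (q : K))
    {s : Multiset K} (h : P A a H r (1 ::ₘ 1 ::ₘ s)) : P A a H r s := by
  intro t ht
  obtain ⟨e, he, e', he', h1, h2, hB⟩ := exists_E hC hr
  refine good_contr hA (x := e) (y := e') ?_ hB
  apply h
  refine Multiset.Rel.cons ⟨hC.sub he, by rwa [mul_one]⟩
    (Multiset.Rel.cons ⟨hC.sub he', by rwa [mul_one]⟩ ht)

theorem P_one_one (hr : r ^ 2 = (q : K)) (h2 : Pairs A a H q) : P A a H r {1, 1} := by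
  intro t ht
  obtain ⟨u, t', ⟨hu, h1⟩, ht', rfl⟩ := Multiset.rel_cons_left.1 ht
  obtain ⟨w, t'', ⟨hw, h3⟩, ht'', rfl⟩ := Multiset.rel_cons_left.1 ht'
  rw [Multiset.rel_zero_left] at ht''
  subst ht''
  refine h2 u hu w hw ?_
  have h4 := h1.mul h3
  rwa [mul_one, ← pow_two, hr] at h4

theorem P_replicate (hA : Closed d ω up A) (hr : r ^ 2 = (q : K)) (h2 : Pairs A a H q) (k : ℕ) :
    P A a H r (Multiset.replicate (2 * k) 1) := by
  induction k with
  | zero => simpa using (P_zero hA : P A a H r 0)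
  | succ k ih =>
    have h1 := P_add hA (P_one_one hr h2) ih
    have h3 : (Multiset.replicate (2 * (k + 1)) (1 : K)) = {1, 1} + Multiset.replicate (2 * k) 1 := by
      rw [show 2 * (k + 1) = 2 * k + 1 + 1 by ring, Multiset.replicate_succ,
        Multiset.replicate_succ]
      rfl
    rw [h3]
    exact h1

theorem P_contract_replicate (hA : Closed d ω up A) (hC : Curve q d a ω H E)
    (hr : r ^ 2 = (q : K)) {s : Multiset K}
    (k : ℕ) (h : P A a H r (Multiset.replicate (2 * k) 1 + s)) : P A a H r s := by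
  induction k with
  | zero => simpa using h
  | succ k ih =>
    apply ih
    rw [show 2 * (k + 1) = 2 * k + 1 + 1 by ring, Multiset.replicate_succ,
      Multiset.replicate_succ, Multiset.cons_add, Multiset.cons_add] at h
    exact P_contract hA hC hr h

/-- Splitting a letter. -/
theorem P_split (hA : Closed d ω up A) (hC : Curve q d a ω H E) (hr : r ^ 2 = (q : K))
    (h4 : Quads A a H E q)
    {ξ η : K} (hU : Occurs a H (r * (ξ * η))) {s : Multiset K}
    (h : P A a H r ((ξ * η) ::ₘ 1 ::ₘ s)) : P A a H r (ξ ::ₘ η ::ₘ s) := by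
  intro t ht
  obtain ⟨x, t1, ⟨hx, ha'⟩, ht1, rfl⟩ := Multiset.rel_cons_left.1 ht
  obtain ⟨y, t2, ⟨hy, hb'⟩, ht2, rfl⟩ := Multiset.rel_cons_left.1 ht1
  obtain ⟨z, hz, hzg⟩ := hU
  obtain ⟨z', hz', hgν, hBz⟩ := exists_dual hC hz
  obtain ⟨e, he, e', he', h1, h2, hB⟩ := exists_E hC hr
  have h3 : Good A {x, y, z', e'} := by
    refine h4 x hx y hy z' hz' e' he' ?_
    have h5 := ((ha'.mul hb').mul (Sim.refl (a z'))).mul h2
    have h6 : r * ξ * (r * η) * a z' * r = (q : K) ^ 2 := by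
      have : r * ξ * (r * η) * a z' * r = r ^ 2 * (r * (ξ * η) * a z') := by ring
      rw [this, ← hzg, hgν, hr]; ring
    rwa [h6] at h5
  have h5 : Good A (z ::ₘ e ::ₘ t2) := by
    apply h
    exact Multiset.Rel.cons ⟨hz, by rw [hzg]; exact Sim.refl _⟩
      (Multiset.Rel.cons ⟨hC.sub he, by rwa [mul_one]⟩ ht2)
  have h6 := good_add hA h3 h5
  have h7 : ({x, y, z', e'} : Multiset ι) + (z ::ₘ e ::ₘ t2) =
      z ::ₘ z' ::ₘ e ::ₘ e' ::ₘ x ::ₘ y ::ₘ t2 := by
    simp only [Multiset.insert_eq_cons, ← Multiset.singleton_add]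
    abel
  rw [h7] at h6
  exact good_contr hA (good_contr hA h6 hBz) hB

/-- Merging two letters. -/
theorem P_merge (hA : Closed d ω up A) (hC : Curve q d a ω H E) (hr : r ^ 2 = (q : K))
    (h2 : Pairs A a H q)
    (h4 : Quads A a H E q) {ξ η : K} (hξ : Occurs a H (r * ξ)) (hη : Occurs a H (r * η))
    {s : Multiset K} (h : P A a H r (ξ ::ₘ η ::ₘ s)) : P A a H r ((ξ * η) ::ₘ 1 ::ₘ s) := by
  intro t ht
  obtain ⟨z, t1, ⟨hz, hc'⟩, ht1, rfl⟩ := Multiset.rel_cons_left.1 ht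
  obtain ⟨e0, t2, ⟨he0, hd'⟩, ht2, rfl⟩ := Multiset.rel_cons_left.1 ht1
  obtain ⟨x, hx, hxg⟩ := hξ
  obtain ⟨x', hx', hgν, hBx⟩ := exists_dual hC hx
  obtain ⟨y, hy, hyg⟩ := hη
  obtain ⟨y', hy', hgρ, hBy⟩ := exists_dual hC hy
  obtain ⟨e, he, e', he', h5, h6, hB⟩ := exists_E hC hr
  have h7 : Good A {x', y', z, e} := by
    refine h4 x' hx' y' hy' z hz e he ?_
    have h8 := (((Sim.refl (a x')).mul (Sim.refl (a y'))).mul hc').mul h5
    have h9 : a x' * a y' * (r * (ξ * η)) * r = (q : K) ^ 2 := by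
      have : a x' * a y' * (r * (ξ * η)) * r = (r * ξ * a x') * (r * η * a y') := by ring
      rw [this, ← hxg, ← hyg, hgν, hgρ]; ring
    rwa [h9] at h8
  have h8 : Good A {e', e0} := by
    refine h2 e' (hC.sub he') e0 he0 ?_
    have h9 := h6.mul hd'
    rwa [mul_one, ← pow_two, hr] at h9
  have h9 : Good A (x ::ₘ y ::ₘ t2) := by
    apply h
    exact Multiset.Rel.cons ⟨hx, by rw [hxg]; exact Sim.refl _⟩
      (Multiset.Rel.cons ⟨hy, by rw [hyg]; exact Sim.refl _⟩ ht2)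
  have h10 := good_add hA (good_add hA h7 h8) h9
  have h11 : ({x', y', z, e} : Multiset ι) + {e', e0} + (x ::ₘ y ::ₘ t2) =
      x ::ₘ x' ::ₘ y ::ₘ y' ::ₘ e ::ₘ e' ::ₘ z ::ₘ e0 ::ₘ t2 := by
    simp only [Multiset.insert_eq_cons, ← Multiset.singleton_add]
    abel
  rw [h11] at h10
  exact good_contr hA (good_contr hA (good_contr hA h10 hBx) hBy) hB

theorem weil_r (hr : r ^ 2 = (q : K)) : IsWeil q 1 r :=
  isWeil_natCast.root two_ne_zero hr

/-- Splitting a product of a list. -/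
theorem P_split_list (hA : Closed d ω up A) (hC : Curve q d a ω H E) (hr : r ^ 2 = (q : K))
    (h4 : Quads A a H E q)
    (l : List K) : ∀ (c : K) (s : Multiset K),
    (∀ n, Occurs a H (r * (c * (l.take n).prod))) →
    P A a H r ((c * l.prod) ::ₘ (Multiset.replicate l.length 1 + s)) →
    P A a H r (c ::ₘ ((l : Multiset K) + s)) := by
  induction l with
  | nil =>
    intro c s _ h
    simpa using h
  | cons b l ih =>
    intro c s hU h
    have h1 : P A a H r ((c * b) ::ₘ ((l : Multiset K) + (1 ::ₘ s))) := by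
      refine ih (c * b) (1 ::ₘ s) (fun n => ?_) ?_
      · have := hU (n + 1)
        rwa [List.take_succ_cons, List.prod_cons, ← mul_assoc c b] at this
      · rw [List.prod_cons, List.length_cons, Multiset.replicate_succ, ← mul_assoc c b] at h
        rw [Multiset.add_cons]
        rwa [Multiset.cons_add] at h
    have h2 : P A a H r ((c * b) ::ₘ 1 ::ₘ ((l : Multiset K) + s)) := by
      rwa [Multiset.add_cons] at h1
    have h3 := P_split hA hC hr h4 (ξ := c) (η := b) (by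
      have := hU 1
      simpa using this) h2
    rw [← Multiset.cons_coe, Multiset.cons_add]
    exact h3

/-- Merging a power. -/
theorem P_merge_pow (hA : Closed d ω up A) (hC : Curve q d a ω H E) (hr : r ^ 2 = (q : K))
    (h2 : Pairs A a H q)
    (h4 : Quads A a H E q) (b : K) (N : ℕ) (hU : ∀ j ≤ N, Occurs a H (r * b ^ j)) :
    ∀ n ≤ N, ∀ s : Multiset K, P A a H r (1 ::ₘ (Multiset.replicate n b + s)) →
    P A a H r (b ^ n ::ₘ (Multiset.replicate n 1 + s)) := by
  intro n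
  induction n with
  | zero =>
    intro _ s h
    simpa using h
  | succ n ih =>
    intro hn s h
    have h1 : P A a H r (1 ::ₘ (Multiset.replicate n b + (b ::ₘ s))) := by
      rw [Multiset.add_cons, ← Multiset.cons_add, ← Multiset.replicate_succ]
      exact h
    have h3 := ih (by omega) _ h1
    rw [Multiset.add_cons] at h3
    have h5 := P_merge hA hC hr h2 h4 (hU n (by omega)) (by
      have := hU 1 (by omega)
      rwa [pow_one] at this) h3
    rw [← pow_succ, ← Multiset.cons_add, ← Multiset.replicate_succ] at h5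
    exact h5

end Pool.Agent.H20.TU
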