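import Pool.Agent.H20.TU.Core

/-!
Codimension two suffices for products of curves over finite fields: the theorem.
-/

namespace Pool.Agent.H20.TU

variable {K : Type*} [Field K]
variable {ι : Type*} {q : ℕ} {d : ι → ℕ} {a : ι → K} {ω : ι → ι → K} {up : ι → ι}
  {A : ∀ n, Submodule K (Tens K ι n)} {r : K}

theorem P_nsmul (hA : Closed d ω up A) {H : Set ι} {s : Multiset K} (h : P A a H r s) (n : ℕ) : P A a H r (n • s) := by
  induction n with
  | zero => simpa using (P_zero hA : P A a H r 0)
  | succ n ih =>
    rw [succ_nsmul]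
    exact P_add hA ih h

omit [Field K] in
theorem nsmul_map (f : K → K) (m : ℕ) (l : List K) :
    m • ((l.map f : List K) : Multiset K) = (l.map fun ξ => Multiset.replicate m (f ξ)).sum := by
  induction l with
  | nil => simp
  | cons a l ih =>
    rw [List.map_cons, List.map_cons, List.sum_cons, ← ih, ← Multiset.cons_coe,
      ← Multiset.singleton_add, nsmul_add, Multiset.nsmul_singleton]

theorem map_mul_prod (r : K) (l : List K) :
    (l.map fun ξ => r * ξ).prod = r ^ l.length * l.prod := by
  induction l with
  | nil => simp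
  | cons a l ih =>
    rw [List.map_cons, List.prod_cons, ih, List.prod_cons, List.length_cons, pow_succ]
    ring

theorem map_prod_pow (f : K → K) (m : ℕ) (hf : ∀ ξ, f ξ ^ m = ξ) (l : List K) :
    (l.map f).prod ^ m = l.prod := by
  induction l with
  | nil => simp
  | cons a l ih => rw [List.map_cons, List.prod_cons, mul_pow, hf, ih, List.prod_cons]

/-- `r * (product of m-th roots)` is a Weil number. -/
theorem weil_list (hr : r ^ 2 = (q : K)) {m : ℕ} (hm : m ≠ 0) (l : List K)
    (hl : ∀ ξ ∈ l, IsWeil q 1 (r * ξ)) (hlen : l.length ≤ m) {g : K} (hg : g ^ m = l.prod) :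
    IsWeil q 1 (r * g) := by
  have h1 : IsWeil q l.length (l.map fun ξ => r * ξ).prod := by
    have := IsWeil.list_prod (l.map fun ξ => r * ξ) (by
      intro a ha
      obtain ⟨ξ, hξ, rfl⟩ := List.mem_map.1 ha
      exact hl ξ hξ)
    rwa [List.length_map] at this
  have h2 : IsWeil q ((m - l.length) * 1) (r ^ (m - l.length)) := by
    exact isWeil_pow (weil_r (q := q) hr) _
  have h3 := h1.mul h2
  rw [mul_one, Nat.add_sub_cancel' hlen, map_mul_prod, mul_right_comm, ← pow_add,
    Nat.add_sub_cancel' hlen] at h3
  refine h3.root hm ?_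
  rw [mul_pow, hg]

/-- Codimension two on one fourfold suffices for a given word. -/
theorem core [IsAlgClosed K] [CharZero K] (d : ι → ℕ) (a : ι → K) (ω : ι → ι → K) (up : ι → ι)
    (hr : r ^ 2 = (q : K)) (l : List K)
    (hl : ∀ ξ ∈ l, IsWeil q 1 (r * ξ)) (k : ℕ) (hlen : l.length = 2 * k)
    (hprod : Sim l.prod 1) : ∃ S : Finset K, (∀ g ∈ S, IsWeil q 1 g) ∧
      ∀ A : ∀ n, Submodule K (Tens K ι n), Closed d ω up A → ∀ H E : Set ι, Curve q d a ω H E →
        (∀ g ∈ S, Occurs a H g) → Pairs A a H q → Quads A a H E q →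
        P A a H r (l : Multiset K) := by
  classical
  by_cases hm : l.length = 0
  · rw [List.length_eq_zero_iff] at hm
    subst hm
    exact ⟨∅, by simp, fun _ hA _ _ _ _ _ _ => P_zero hA⟩
  set m := l.length with hmdef
  have hex : ∀ ξ : K, ∃ g : K, g ^ m = ξ := fun ξ =>
    IsAlgClosed.exists_pow_nat_eq ξ (Nat.pos_of_ne_zero hm)
  choose f hf using hex
  have hWj : ∀ ξ ∈ l, ∀ j ≤ m, IsWeil q 1 (r * f ξ ^ j) := by
    intro ξ hξ j hj
    refine weil_list hr hm (List.replicate j ξ) ?_ (by simpa using hj) ?_
    · intro a ha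
      rw [List.eq_of_mem_replicate ha]
      exact hl ξ hξ
    · rw [← pow_mul, mul_comm, pow_mul, hf, List.prod_replicate]
  have hWn : ∀ n, IsWeil q 1 (r * (1 * ((l.map f).take n).prod)) := by
    intro n
    rw [one_mul, ← List.map_take]
    refine weil_list hr hm (l.take n) (fun ξ hξ => hl ξ (List.mem_of_mem_take hξ)) ?_
      (map_prod_pow f m hf _)
    rw [List.length_take]
    exact min_le_right _ _
  refine ⟨(Finset.range (m + 1)).image (fun n => r * (1 * ((l.map f).take n).prod)) ∪
    (l.toFinset ×ˢ Finset.range (m + 1)).image (fun p => r * f p.1 ^ p.2), ?_, ?_⟩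
  · intro g hg
    rw [Finset.mem_union, Finset.mem_image, Finset.mem_image] at hg
    rcases hg with ⟨n, -, rfl⟩ | ⟨p, hp, rfl⟩
    · exact hWn n
    · rw [Finset.mem_product, List.mem_toFinset, Finset.mem_range] at hp
      exact hWj p.1 hp.1 p.2 (by omega)
  intro A hA H E hC hS h2 h4
  have hUj : ∀ ξ ∈ l, ∀ j ≤ m, Occurs a H (r * f ξ ^ j) := by
    intro ξ hξ j hj
    refine hS _ (Finset.mem_union_right _ (Finset.mem_image.2 ⟨(ξ, j), ?_, rfl⟩))
    rw [Finset.mem_product, List.mem_toFinset, Finset.mem_range]
    exact ⟨hξ, by change j < m + 1; omega⟩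
  have hUn : ∀ n, Occurs a H (r * (1 * ((l.map f).take n).prod)) := by
    intro n
    by_cases hn : n < m + 1
    · exact hS _ (Finset.mem_union_left _ (Finset.mem_image.2 ⟨n, Finset.mem_range.2 hn, rfl⟩))
    · have h5 : (l.map f).take n = (l.map f).take m := by
        rw [List.take_of_length_le (by rw [List.length_map]; omega),
          List.take_of_length_le (by rw [List.length_map])]
      rw [h5]
      exact hS _ (Finset.mem_union_left _ (Finset.mem_image.2
        ⟨m, Finset.mem_range.2 (by omega), rfl⟩))
  -- step 1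
  have h5 : P A a H r ((l.map f : List K) : Multiset K) := by
    have h6 : P A a H r ((1 * (l.map f).prod) ::ₘ
        (Multiset.replicate (l.map f).length 1 + {1})) := by
      rw [one_mul, List.length_map, ← hmdef]
      have h7 : Sim (1 : K) (l.map f).prod := by
        refine Sim.of_pow hm ?_
        rw [map_prod_pow f m hf, one_pow]
        exact hprod.symm
      refine P_congr h7 ?_
      have h8 := P_replicate hA hr h2 (k + 1)
      rw [show 2 * (k + 1) = m + 1 + 1 by omega, Multiset.replicate_succ,
        Multiset.replicate_succ] at h8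
      have h9 : (1 : K) ::ₘ (Multiset.replicate m 1 + {1}) =
          1 ::ₘ 1 ::ₘ Multiset.replicate m 1 := by
        rw [add_comm, Multiset.singleton_add]
      rwa [h9]
    have h7 := P_split_list hA hC hr h4 (l.map f) 1 {1} hUn h6
    rw [add_comm, Multiset.singleton_add] at h7
    exact P_contract hA hC hr h7
  -- step 2
  have h6 := P_nsmul hA h5 m
  rw [nsmul_map] at h6
  -- step 3
  have h7 : ∀ l' : List K, (∀ ξ ∈ l', ξ ∈ l) → ∀ s : Multiset K,
      P A a H r ((l'.map fun ξ => Multiset.replicate m (f ξ)).sum + s) →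
      P A a H r ((l' : Multiset K) + Multiset.replicate (l'.length * (m + 1)) 1 + s) := by
    intro l'
    induction l' with
    | nil =>
      intro _ s h
      simpa using h
    | cons ξ l' ih =>
      intro hmem s h
      have h8 := P_add hA (P_one_one hr h2) h
      have h9 : ({1, 1} : Multiset K) +
          (((ξ :: l').map fun ξ => Multiset.replicate m (f ξ)).sum + s) =
          1 ::ₘ (Multiset.replicate m (f ξ) +
            (1 ::ₘ ((l'.map fun ξ => Multiset.replicate m (f ξ)).sum + s))) := by
        simp only [Multiset.insert_eq_cons, ← Multiset.singleton_add, List.map_cons,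
          List.sum_cons]
        abel
      rw [h9] at h8
      have h10 := P_merge_pow hA hC hr h2 h4 (f ξ) m (hUj ξ (hmem ξ (by simp))) m le_rfl _ h8
      rw [hf] at h10
      have h11 : ξ ::ₘ (Multiset.replicate m 1 +
          (1 ::ₘ ((l'.map fun ξ => Multiset.replicate m (f ξ)).sum + s))) =
          (l'.map fun ξ => Multiset.replicate m (f ξ)).sum +
            (ξ ::ₘ (Multiset.replicate (m + 1) 1 + s)) := by
        rw [Multiset.replicate_succ]
        simp only [← Multiset.singleton_add]
        abel
      rw [h11] at h10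
      have h12 := ih (fun x hx => hmem x (by simp [hx])) _ h10
      have h13 : (l' : Multiset K) + Multiset.replicate (l'.length * (m + 1)) 1 +
          (ξ ::ₘ (Multiset.replicate (m + 1) 1 + s)) =
          ((ξ :: l' : List K) : Multiset K) +
            Multiset.replicate ((ξ :: l').length * (m + 1)) 1 + s := by
        rw [List.length_cons, Nat.succ_mul,
          Multiset.replicate_add (l'.length * (m + 1)) (m + 1), ← Multiset.cons_coe]
        simp only [← Multiset.singleton_add]
        abel
      rwa [h13] at h12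
  have h8 := h7 l (fun _ h => h) 0 (by rwa [add_zero])
  rw [add_zero, ← hmdef, show m * (m + 1) = 2 * (k * (m + 1)) by rw [hlen]; ring, add_comm] at h8
  exact P_contract_replicate hA hC hr _ h8

end Pool.Agent.H20.TU
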