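import Mathlib

/-!
# Tate classes on products of varieties over a finite field: definitions

`e i`, `i : ι`, is a basis of the direct sum of the cohomology groups of varieties over the field
with `q` elements, consisting of eigenvectors of the Frobenius `F`, `F (e i) = a i • e i`, where
`e i` has degree `d i`.
-/

namespace Pool.Agent.H20.TU

/-- `x` is a Weil `q`-number of weight `w`: an algebraic integer whose image under every ring
homomorphism from the ring of algebraic integers of `K` to `ℂ` has absolute value `q ^ (w / 2)`. -/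
def IsWeil {K : Type*} [Field K] (q w : ℕ) (x : K) : Prop :=
  ∃ h : x ∈ integralClosure ℤ K, ∀ σ : integralClosure ℤ K →+* ℂ,
    ‖σ ⟨x, h⟩‖ ^ 2 = (q : ℝ) ^ w

/-- The `n`-th tensor power of the space with basis `e i`, `i : ι`: finite linear combinations of
the words `e (v 0) ⊗ e (v 1) ⊗ …`, `v : Fin n → ι`. -/
abbrev Tens (K ι : Type*) [Field K] (n : ℕ) : Type _ := (Fin n → ι) →₀ K

section
variable {K ι : Type*} [Field K]

/-- The product `x ⊗ y`. -/
noncomputable def mul {m n : ℕ} (x : Tens K ι m) (y : Tens K ι n) : Tens K ι (m + n) :=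
  x.sum fun v c => y.sum fun w d => Finsupp.single (Fin.append v w) (c * d)

/-- Permutation of the factors. -/
noncomputable def permute {n : ℕ} (σ : Equiv.Perm (Fin n)) (x : Tens K ι n) : Tens K ι n :=
  x.sum fun v c => Finsupp.single (fun i => v (σ i)) c

/-- Contraction of the first two factors by the pairing `ω`. -/
noncomputable def contract (ω : ι → ι → K) {n : ℕ} (x : Tens K ι (n + 2)) : Tens K ι n :=
  x.sum fun v c => Finsupp.single (fun i => v i.succ.succ) (c * ω (v 0) (v 1))

/-- The operator which sends `e i` to `e (up i)` in the first factor. -/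
noncomputable def raise (up : ι → ι) {n : ℕ} (x : Tens K ι (n + 1)) : Tens K ι (n + 1) :=
  x.sum fun v c => Finsupp.single (Fin.cons (up (v 0)) fun i => v i.succ) c

/-- The endomorphism `F ⊗ … ⊗ F` of the `n`-th tensor power, where `F (e i) = a i • e i`. -/
noncomputable def frob (a : ι → K) {n : ℕ} (x : Tens K ι n) : Tens K ι n :=
  x.sum fun v c => Finsupp.single v ((∏ i, a (v i)) * c)

/-- `x` is a (geometric) Tate class of codimension `k`: for some `M > 0` the `M`-th iterate of
`F ⊗ … ⊗ F` sends `x` to `q ^ (k M) x`. -/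
def IsTate (a : ι → K) (q k : ℕ) {n : ℕ} (x : Tens K ι n) : Prop :=
  ∃ M : ℕ, 0 < M ∧ (frob a)^[M] x = (q : K) ^ (k * M) • x

/-- `A n` contains all Tate classes which are combinations of words with the property `P`. -/
def Has (A : ∀ n, Submodule K (Tens K ι n)) (q : ℕ) (a : ι → K) {n : ℕ}
    (P : (Fin n → ι) → Prop) : Prop :=
  ∀ (k : ℕ) (x : Tens K ι n), (∀ v ∈ x.support, P v) → IsTate a q k x → x ∈ A n

/-- The cohomology: `e i` has degree `d i` and Frobenius eigenvalue `a i`, a Weil number of weight
`d i`, a root of unity in degree zero.  The set `low` is that of the `e i` of degree at most the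
dimension, and `up` is the hard Lefschetz isomorphism: the other basis elements are the `e (up i)`
with `i` in `low`. -/
structure Setting (q : ℕ) (d : ι → ℕ) (a : ι → K) (low : Set ι) (up : ι → ι) : Prop where
  weil : ∀ i, IsWeil q (d i) (a i)
  root : ∀ i, d i = 0 → ∃ m : ℕ, 0 < m ∧ a i ^ m = 1
  shift : ∀ i ∈ low, ∃ k : ℕ, a (up i) = (q : K) ^ k * a i

/-- The family of subspaces `A n` of the tensor powers contains the `e i` of degree zero, and is
closed under exterior products, permutations of the factors, contraction of the first two factors,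
and raising of the first factor. -/
structure Closed (d : ι → ℕ) (ω : ι → ι → K) (up : ι → ι) (A : ∀ n, Submodule K (Tens K ι n)) :
    Prop where
  one : ∀ v : Fin 0 → ι, Finsupp.single v 1 ∈ A 0
  zero : ∀ v : Fin 1 → ι, d (v 0) = 0 → Finsupp.single v 1 ∈ A 1
  prod : ∀ m n, ∀ x ∈ A m, ∀ y ∈ A n, mul x y ∈ A (m + n)
  perm : ∀ n (σ : Equiv.Perm (Fin n)), ∀ x ∈ A n, permute σ x ∈ A n
  contr : ∀ n, ∀ x ∈ A (n + 2), contract ω x ∈ A n
  lef : ∀ n, ∀ x ∈ A (n + 1), raise up x ∈ A (n + 1)

/-- The `e i`, `i ∈ H`, form a basis of the first cohomology group of a curve, and the `e i`,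
`i ∈ E`, a basis of the image of that of a supersingular elliptic curve, to which the curve maps;
`ω` is the cup product pairing. -/
structure Curve (q : ℕ) (d : ι → ℕ) (a : ι → K) (ω : ι → ι → K) (H E : Set ι) : Prop where
  sub : E ⊆ H
  deg : ∀ i ∈ H, d i = 1
  pairing : ∀ i ∈ H, ∀ j ∈ H, a i * a j * ω i j = q * ω i j
  nondeg : ∀ i ∈ H, ∃ j ∈ H, ω i j ≠ 0
  nondegE : ∀ i ∈ E, ∃ j ∈ E, ω i j ≠ 0
  nonempty : E.Nonempty
  supersingular : ∀ i ∈ E, ∃ m : ℕ, 0 < m ∧ a i ^ (2 * m) = (q : K) ^ m

end

end Pool.Agent.H20.TU
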