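import Pool.Agent.H20.TU.Core2

/-!
From products of curves to products of arbitrary varieties.
-/

namespace Pool.Agent.H20.TU

variable {K : Type*} [Field K]
variable {ι : Type*} {q : ℕ} {d : ι → ℕ} {a : ι → K} {ω : ι → ι → K} {up : ι → ι}
  {A : ∀ n, Submodule K (Tens K ι n)} {H E : Set ι} {r : K}

theorem good_contract_replicate (hA : Closed d ω up A) {u w : ι} (hB : ω u w ≠ 0) (i : ℕ)
    (s : Multiset ι)
    (h : Good A (Multiset.replicate i u + (Multiset.replicate i w + s))) : Good A s := by
  induction i with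
  | zero => simpa using h
  | succ i ih =>
    apply ih
    refine good_contr hA (x := u) (y := w) ?_ hB
    rw [Multiset.replicate_succ, Multiset.replicate_succ, Multiset.cons_add, Multiset.cons_add,
      Multiset.add_cons] at h
    exact h

theorem rel_replicate {α β : Type*} {R : α → β → Prop} {a : α} {b : β} (h : R a b) (n : ℕ) :
    Multiset.Rel R (Multiset.replicate n a) (Multiset.replicate n b) := by
  induction n with
  | zero => exact Multiset.Rel.zero
  | succ n ih =>
    rw [Multiset.replicate_succ, Multiset.replicate_succ]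
    exact Multiset.Rel.cons h ih

/-- A letter of weight `i`, dominated by the `i`-th power of a curve with eigenvalue `γ`. -/
structure Dom (A : ∀ n, Submodule K (Tens K ι n)) (a : ι → K) (ω : ι → ι → K) (H : Set ι)
    (i : ℕ) (γ : K) (v u w : ι) : Prop where
  mem : i ≠ 0 → u ∈ H
  eig : i ≠ 0 → a u = γ
  nz : i ≠ 0 → ω u w ≠ 0
  good : Good A (v ::ₘ Multiset.replicate i w)

theorem dom_words (hA : Closed d ω up A) (hr0 : r ≠ 0) (l : List (ℕ × K × ι × ι × ι))
    (hl : ∀ p ∈ l, Dom A a ω H p.1 p.2.1 p.2.2.1 p.2.2.2.1 p.2.2.2.2)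
    (hP : P A a H r (l.map fun p => Multiset.replicate p.1 (p.2.1 * r⁻¹)).sum) :
    Good A ((l.map fun p => p.2.2.1 : List ι) : Multiset ι) := by
  -- claim 1
  have c1 : ∀ l' : List (ℕ × K × ι × ι × ι), (∀ p ∈ l', p ∈ l) →
      Good A ((l'.map fun p => Multiset.replicate p.1 p.2.2.2.2).sum +
        ((l'.map fun p => p.2.2.1 : List ι) : Multiset ι)) := by
    intro l'
    induction l' with
    | nil => intro _; simpa using good_zero hA
    | cons p l' ih =>
      intro h
      have h1 := good_add hA (hl p (h p (by simp))).good (ih fun x hx => h x (by simp [hx]))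
      convert h1 using 1
      rw [List.map_cons, List.map_cons, List.sum_cons, ← Multiset.cons_coe]
      simp only [← Multiset.singleton_add]
      abel
  -- claim 2
  have c2 : Good A (l.map fun p => Multiset.replicate p.1 p.2.2.2.1).sum := by
    apply hP
    have hrel : ∀ l' : List (ℕ × K × ι × ι × ι), (∀ p ∈ l', p ∈ l) →
        Multiset.Rel (Letter a H r)
          (l'.map fun p => Multiset.replicate p.1 (p.2.1 * r⁻¹)).sum
          (l'.map fun p => Multiset.replicate p.1 p.2.2.2.1).sum := by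
      intro l'
      induction l' with
      | nil => intro _; simp
      | cons p l' ih =>
        intro h
        have h1 := ih fun x hx => h x (by simp [hx])
        rw [List.map_cons, List.sum_cons, List.map_cons, List.sum_cons]
        refine Multiset.Rel.add ?_ h1
        have h3 := hl p (h p (by simp))
        by_cases hi : p.1 = 0
        · rw [hi]; simp
        · refine rel_replicate ?_ p.1
          refine ⟨h3.mem hi, ?_⟩
          rw [mul_comm r, mul_assoc, inv_mul_cancel₀ hr0, mul_one, h3.eig hi]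
          exact Sim.refl _
    exact hrel l fun _ h => h
  -- claim 3
  have c3 : ∀ l' : List (ℕ × K × ι × ι × ι), (∀ p ∈ l', p ∈ l) → ∀ s : Multiset ι,
      Good A ((l'.map fun p => Multiset.replicate p.1 p.2.2.2.1).sum +
        ((l'.map fun p => Multiset.replicate p.1 p.2.2.2.2).sum + s)) → Good A s := by
    intro l'
    induction l' with
    | nil => intro _ s h; simpa using h
    | cons p l' ih =>
      intro hmem s h
      refine ih (fun x hx => hmem x (by simp [hx])) s ?_
      by_cases hi : p.1 = 0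
      · rw [List.map_cons, List.map_cons, hi] at h
        simpa using h
      · refine good_contract_replicate hA (u := p.2.2.2.1) (w := p.2.2.2.2)
          ((hl p (hmem p (by simp))).nz hi) p.1 _ ?_
        convert h using 1
        rw [List.map_cons, List.map_cons, List.sum_cons, List.sum_cons]
        abel
  exact c3 l (fun _ h => h) _ (good_add hA c2 (c1 l fun _ h => h))

/-! ### Finitely many words -/

/-- The word of curve letters belonging to an exponent vector. -/
def curveWord {κ : Type*} [Fintype κ] (i : κ → ℕ) (γ : κ → K) (r : K) (c : κ → ℕ) : Multiset K :=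
  ∑ a, (i a * c a) • ({γ a * r⁻¹} : Multiset K)

theorem curveWord_add {κ : Type*} [Fintype κ] (i : κ → ℕ) (γ : κ → K) (r : K) (c d : κ → ℕ) :
    curveWord i γ r (c + d) = curveWord i γ r c + curveWord i γ r d := by
  rw [curveWord, curveWord, curveWord, ← Finset.sum_add_distrib]
  refine Finset.sum_congr rfl fun a _ => ?_
  rw [Pi.add_apply, mul_add, add_nsmul]

theorem curveWord_zero {κ : Type*} [Fintype κ] (i : κ → ℕ) (γ : κ → K) (r : K) :
    curveWord i γ r (0 : κ → ℕ) = 0 := by
  simp [curveWord]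

theorem mem_curveWord {κ : Type*} [Fintype κ] {i : κ → ℕ} {γ : κ → K} {r : K} {c : κ → ℕ} {ξ : K}
    (h : ξ ∈ curveWord i γ r c) : ∃ a, i a ≠ 0 ∧ ξ = γ a * r⁻¹ := by
  rw [curveWord, Multiset.mem_sum] at h
  obtain ⟨a, -, ha⟩ := h
  have h1 : i a * c a ≠ 0 := by
    intro h0
    rw [h0, zero_nsmul] at ha
    simp at ha
  refine ⟨a, left_ne_zero_of_mul h1, ?_⟩
  have := Multiset.mem_of_mem_nsmul ha
  simpa using this

theorem card_curveWord {κ : Type*} [Fintype κ] (i : κ → ℕ) (γ : κ → K) (r : K) (c : κ → ℕ) :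
    (curveWord i γ r c).card = ∑ a, i a * c a := by
  rw [curveWord, Multiset.card_sum]
  simp

theorem prod_curveWord {κ : Type*} [Fintype κ] (i : κ → ℕ) (γ : κ → K) (r : K) (c : κ → ℕ) :
    (curveWord i γ r c).prod = ∏ a, (γ a * r⁻¹) ^ (i a * c a) := by
  rw [curveWord, Multiset.prod_sum]
  refine Finset.prod_congr rfl fun a _ => ?_
  rw [Multiset.prod_nsmul, Multiset.prod_singleton]

theorem sim_prod {κ : Type*} (s : Finset κ) (f g : κ → K) (h : ∀ a ∈ s, Sim (f a) (g a)) :
    Sim (∏ a ∈ s, f a) (∏ a ∈ s, g a) := by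
  classical
  induction s using Finset.induction_on with
  | empty => simpa using Sim.refl (1 : K)
  | insert a s ha ih =>
    rw [Finset.prod_insert ha, Finset.prod_insert ha]
    exact (h a (by simp)).mul (ih fun b hb => h b (by simp [hb]))

theorem weil_fprod {κ : Type*} (s : Finset κ) (i : κ → ℕ) (μ : κ → K)
    (hw : ∀ a ∈ s, IsWeil q (i a) (μ a)) : IsWeil q (∑ a ∈ s, i a) (∏ a ∈ s, μ a) := by
  classical
  induction s using Finset.induction_on with
  | empty => simpa using (IsWeil.one : IsWeil q 0 (1 : K))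
  | insert a s ha ih =>
    rw [Finset.sum_insert ha, Finset.prod_insert ha]
    exact (hw a (by simp)).mul (ih fun b hb => hw b (by simp [hb]))

/-- The exponent vectors of Tate words. -/
def tateVectors {κ : Type*} [Fintype κ] (q : ℕ) (μ : κ → K) : AddSubmonoid (κ → ℕ) where
  carrier := {c | ∃ k : ℕ, Sim (∏ a, μ a ^ c a) ((q : K) ^ k)}
  zero_mem' := ⟨0, by simpa using Sim.refl (1 : K)⟩
  add_mem' := by
    rintro c d ⟨k, hk⟩ ⟨k', hk'⟩
    refine ⟨k + k', ?_⟩
    have h := hk.mul hk'
    rw [← Finset.prod_mul_distrib, ← pow_add] at h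
    convert h using 2
    rw [Pi.add_apply, pow_add]

theorem tateVectors_weight {κ : Type*} [Fintype κ] [CharZero K] (hq : 1 < q) {i : κ → ℕ}
    {μ : κ → K} (hw : ∀ a, IsWeil q (i a) (μ a)) {c : κ → ℕ} {k : ℕ}
    (hk : Sim (∏ a, μ a ^ c a) ((q : K) ^ k)) : ∑ a, c a * i a = k * 2 := by
  have hq0 : 0 < q := by omega
  obtain ⟨N, hN, h⟩ := hk
  exact (weil_fprod Finset.univ (fun a => c a * i a) (fun a => μ a ^ c a)
    (fun a _ => isWeil_pow (hw a) (c a))).weight_unique hq hN
    (isWeil_pow (isWeil_natCast (K := K) (q := q)) k) h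

theorem tateVectors_fg {κ : Type*} [Fintype κ] [CharZero K] (hq : 1 < q) {i : κ → ℕ}
    {μ : κ → K} (hw : ∀ a, IsWeil q (i a) (μ a)) : (tateVectors q μ).FG := by
  have hq0 : 0 < q := by omega
  have hqK : (q : K) ≠ 0 := by
    have : (q : ℕ) ≠ 0 := by omega
    exact_mod_cast this
  apply AddSubmonoid.fg_of_subtractive
  rintro c ⟨k, hk⟩ d ⟨k', hk'⟩
  have h1 := tateVectors_weight hq hw hk
  have h2 := tateVectors_weight hq hw hk'
  have h3 : ∑ a, (c + d) a * i a = ∑ a, c a * i a + ∑ a, d a * i a := by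
    rw [← Finset.sum_add_distrib]
    refine Finset.sum_congr rfl fun a _ => ?_
    rw [Pi.add_apply, add_mul]
  obtain ⟨e, he⟩ : ∃ e, k' = k + e := ⟨k' - k, by omega⟩
  refine ⟨e, ?_⟩
  obtain ⟨N, hN, hN1⟩ := hk
  obtain ⟨M, hM, hM1⟩ := hk'
  refine ⟨N * M, mul_ne_zero hN hM, ?_⟩
  have h4 : (∏ a, μ a ^ (c + d) a) = (∏ a, μ a ^ c a) * ∏ a, μ a ^ d a := by
    rw [← Finset.prod_mul_distrib]
    refine Finset.prod_congr rfl fun a _ => ?_
    rw [Pi.add_apply, pow_add]
  have h5 : ((∏ a, μ a ^ (c + d) a) ^ M) ^ N = (((q : K) ^ k') ^ M) ^ N := by rw [hM1]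
  have h6 : (∏ a, μ a ^ c a) ^ (N * M) = ((q : K) ^ k) ^ (N * M) := by
    rw [pow_mul, hN1, ← pow_mul]
  rw [h4, ← pow_mul, ← pow_mul, mul_pow, mul_comm M N, h6, he, pow_add, mul_pow] at h5
  exact mul_left_cancel₀ (pow_ne_zero _ (pow_ne_zero _ hqK)) h5

/-- Finitely many Weil numbers, hence one curve, suffice for all words in a finite alphabet. -/
theorem core_fin [IsAlgClosed K] [CharZero K] (d : ι → ℕ) (a : ι → K) (ω : ι → ι → K)
    (up : ι → ι) (hq : 1 < q)
    (hr : r ^ 2 = (q : K)) {κ : Type*} [Fintype κ] (i : κ → ℕ) (μ γ : κ → K)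
    (hw : ∀ a, IsWeil q (i a) (μ a)) (hγ : ∀ a, i a ≠ 0 → γ a ^ i a = μ a)
    (h0 : ∀ a, i a = 0 → Sim (μ a) 1) :
    ∃ S : Finset K, (∀ g ∈ S, IsWeil q 1 g) ∧
      ∀ A : ∀ n, Submodule K (Tens K ι n), Closed d ω up A → ∀ H E : Set ι, Curve q d a ω H E →
        (∀ g ∈ S, Occurs a H g) → Pairs A a H q → Quads A a H E q → ∀ c ∈ tateVectors q μ, P A a H r (curveWord i γ r c) := by
  classical
  have hq0 : 0 < q := by omega
  have hr0 : r ≠ 0 := by
    rintro rfl
    have h1 : (q : K) = 0 := by rw [← hr]; ring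
    have h2 : q = 0 := by exact_mod_cast h1
    omega
  obtain ⟨T, hT⟩ := tateVectors_fg hq hw
  have hex : ∀ c : κ → ℕ, ∃ S : Finset K, (∀ g ∈ S, IsWeil q 1 g) ∧ (c ∈ T →
      ∀ A : ∀ n, Submodule K (Tens K ι n), Closed d ω up A → ∀ H E : Set ι, Curve q d a ω H E →
        (∀ g ∈ S, Occurs a H g) → Pairs A a H q → Quads A a H E q → P A a H r (curveWord i γ r c)) := by
    intro c
    by_cases hc : c ∈ T
    · have hcM : c ∈ tateVectors q μ := by
        rw [← hT]
        exact AddSubmonoid.subset_closure hc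
      obtain ⟨k, hk⟩ := hcM
      have hwt := tateVectors_weight hq hw hk
      obtain ⟨S, hS, hS'⟩ := core d a ω up hr (curveWord i γ r c).toList (by
        intro ξ hξ
        rw [Multiset.mem_toList] at hξ
        obtain ⟨a, ha, rfl⟩ := mem_curveWord hξ
        rw [mul_comm, mul_assoc, inv_mul_cancel₀ hr0, mul_one]
        exact (hw a).root ha (hγ a ha)) k (by
        rw [Multiset.length_toList, card_curveWord, mul_comm 2 k, ← hwt]
        exact Finset.sum_congr rfl fun a _ => mul_comm _ _) (by
        have h1 : (curveWord i γ r c).toList.prod = (curveWord i γ r c).prod :=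
          Multiset.prod_toList _
        rw [h1, prod_curveWord]
        have h2 : Sim (∏ a, (γ a * r⁻¹) ^ (i a * c a)) (∏ a, (μ a ^ c a * (r⁻¹) ^ (c a * i a))) := by
          refine sim_prod _ _ _ fun a _ => ?_
          rw [mul_pow, mul_comm (i a) (c a)]
          refine Sim.mul ?_ (Sim.refl _)
          by_cases hi : i a = 0
          · rw [hi, mul_zero, pow_zero]
            have := ((h0 a hi).pow (c a)).symm
            rwa [one_pow] at this
          · rw [mul_comm, pow_mul, hγ a hi]
            exact Sim.refl _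
        rw [Finset.prod_mul_distrib, Finset.prod_pow_eq_pow_sum, hwt, mul_comm k 2, pow_mul,
          inv_pow, hr] at h2
        have h3 := h2.trans (hk.mul (Sim.refl (((q : K)⁻¹) ^ k)))
        rwa [← mul_pow, mul_inv_cancel₀ (by
          have : (q : ℕ) ≠ 0 := by omega
          exact_mod_cast this), one_pow] at h3)
      refine ⟨S, hS, fun _ A hA H E hC hO h2 h4 => ?_⟩
      have := hS' A hA H E hC hO h2 h4
      rwa [Multiset.coe_toList] at this
    · exact ⟨∅, by simp, fun h => absurd h hc⟩
  choose S hS hS' using hex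
  refine ⟨T.biUnion S, ?_, ?_⟩
  · intro g hg
    obtain ⟨c, -, hc⟩ := Finset.mem_biUnion.1 hg
    exact hS c g hc
  · intro A hA H E hC hO h2 h4 c hc
    rw [← hT] at hc
    induction hc using AddSubmonoid.closure_induction with
    | mem x hx =>
      exact hS' x hx A hA H E hC (fun g hg => hO g (Finset.mem_biUnion.2 ⟨x, hx, hg⟩)) h2 h4
    | zero => rw [curveWord_zero]; exact P_zero hA
    | add x y _ _ hx hy => rw [curveWord_add]; exact P_add hA hx hy

end Pool.Agent.H20.TU
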