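import Pool.Agent.H20.TU.Ext

/-!
The Tate conjecture in all codimensions, for all products of given varieties, from low codimension
on finitely many varieties: preparations.
-/

namespace Pool.Agent.H20.TU

variable {K : Type*} [Field K]
variable {ι : Type*} {q : ℕ} {d : ι → ℕ} {a : ι → K} {ω : ι → ι → K} {up : ι → ι}
  {A : ∀ n, Submodule K (Tens K ι n)} {H E : Set ι} {r : K}

theorem frob_apply {n : ℕ} (x : Tens K ι n) (w : Fin n → ι) :
    frob a x w = (∏ i, a (w i)) * x w := by
  induction x using Finsupp.induction_linear with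
  | zero => simp [frob]
  | add x y hx hy =>
    have h : frob a (x + y) = frob a x + frob a y := by
      unfold frob
      classical
      rw [Finsupp.sum_add_index]
      · intro v _; simp
      · intro v _ b c; rw [mul_add, Finsupp.single_add]
    rw [h, Finsupp.add_apply, hx, hy, Finsupp.add_apply, mul_add]
  | single v c =>
    classical
    rw [frob_single, Finsupp.single_apply, Finsupp.single_apply]
    split_ifs with h
    · rw [h]
    · simp

theorem frob_iterate_apply {n : ℕ} (x : Tens K ι n) (w : Fin n → ι) (M : ℕ) :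
    (frob a)^[M] x w = (∏ i, a (w i)) ^ M * x w := by
  induction M with
  | zero => simp
  | succ M ih => rw [Function.iterate_succ_apply', frob_apply, ih, pow_succ]; ring

/-- A word is a Tate class if and only if its eigenvalue is a power of `q` up to a root of unity. -/
theorem isTate_single {n k : ℕ} {v : Fin n → ι} (h : Sim (∏ i, a (v i)) ((q : K) ^ k)) :
    IsTate a q k (Finsupp.single v (1 : K)) := by
  obtain ⟨M, hM, h⟩ := h
  refine ⟨M, Nat.pos_of_ne_zero hM, ?_⟩
  ext w
  rw [frob_iterate_apply, Finsupp.smul_apply, smul_eq_mul]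
  by_cases hvw : v = w
  · subst hvw
    rw [h, pow_mul]
  · rw [Finsupp.single_eq_of_ne (Ne.symm hvw), mul_zero, mul_zero]

theorem sim_of_isTate {n k : ℕ} {x : Tens K ι n} (h : IsTate a q k x) {v : Fin n → ι}
    (hv : v ∈ x.support) : Sim (∏ i, a (v i)) ((q : K) ^ k) := by
  obtain ⟨M, hM, h⟩ := h
  refine ⟨M, hM.ne', ?_⟩
  have h1 := DFunLike.congr_fun h v
  rw [frob_iterate_apply, Finsupp.smul_apply, smul_eq_mul] at h1
  rw [← pow_mul]
  exact mul_right_cancel₀ (Finsupp.mem_support_iff.1 hv) h1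

/-- Tate words are in the family if Tate classes are. -/
theorem mem_of_has {n : ℕ} {P : (Fin n → ι) → Prop} (h : Has A q a P) {v : Fin n → ι} (hv : P v)
    {k : ℕ} (hT : Sim (∏ i, a (v i)) ((q : K) ^ k)) : Finsupp.single v 1 ∈ A n := by
  refine h k _ (fun w hw => ?_) (isTate_single hT)
  have h1 := Finsupp.support_single_subset hw
  rw [Finset.mem_singleton] at h1
  rw [h1]; exact hv

theorem has_of_mem {n : ℕ} {P : (Fin n → ι) → Prop}
    (h : ∀ v : Fin n → ι, P v → ∀ k : ℕ, Sim (∏ i, a (v i)) ((q : K) ^ k) →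
      Finsupp.single v 1 ∈ A n) : Has A q a P := by
  intro k x hx hT
  rw [← Finsupp.sum_single x]
  refine Submodule.sum_mem _ fun v hv => ?_
  have h1 := (A n).smul_mem (x v) (h v (hx v hv) k (sim_of_isTate hT hv))
  rwa [Finsupp.smul_single, smul_eq_mul, mul_one] at h1

theorem pairs_of_has (hA : Closed d ω up A)
    (h : Has A q a fun v : Fin 2 → ι => ∀ l, v l ∈ H) : Pairs A a H q := by
  intro i hi j hj hT
  have h1 := mem_of_has h (v := ![i, j]) (by
    intro l; fin_cases l
    · exact hi
    · exact hj) (k := 1) (by simpa using hT)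
  have h2 := (good_ofFn hA _).2 h1
  have h3 : List.ofFn ![i, j] = [i, j] := by simp
  rw [h3] at h2
  exact h2

theorem quads_of_has (hA : Closed d ω up A)
    (h : Has A q a fun v : Fin 4 → ι => v 0 ∈ H ∧ v 1 ∈ H ∧ v 2 ∈ H ∧ v 3 ∈ E) :
    Quads A a H E q := by
  intro x hx y hy z hz e he hT
  have h1 := mem_of_has h (v := ![x, y, z, e]) ⟨hx, hy, hz, he⟩ (k := 2) (by
    simpa [Fin.prod_univ_four] using hT)
  have h2 := (good_ofFn hA _).2 h1
  have h3 : List.ofFn ![x, y, z, e] = [x, y, z, e] := by simp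
  rw [h3] at h2
  exact h2

/-- Every letter of weight `i` is dominated by the `i`-th power of a curve. -/
theorem exists_dom (hA : Closed d ω up A) {i : ℕ} {γ : K} {v : ι} (hC : Curve q d a ω H E)
    (h0 : i = 0 → Good A {v}) (hγ : i ≠ 0 → γ ^ i = a v) (hO : i ≠ 0 → Occurs a H γ)
    (h3 : i ≠ 0 → ∀ j ∈ H, Sim (a v * a j ^ i) ((q : K) ^ i) →
      Finsupp.single (Fin.cons v (fun _ : Fin i => j) : Fin (i + 1) → ι) 1 ∈ A (i + 1)) :
    ∃ u w : ι, Dom A a ω H i γ v u w := by
  by_cases hi : i = 0
  · subst hi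
    exact ⟨v, v, ⟨by simp, by simp, by simp, by simpa using h0 rfl⟩⟩
  · obtain ⟨u, hu, hue⟩ := hO hi
    obtain ⟨w, hwH, hγν, hB⟩ := exists_dual hC hu
    refine ⟨u, w, ⟨fun _ => hu, fun _ => hue, fun _ => hB, ?_⟩⟩
    have h4 := h3 hi w hwH (by
      rw [← hγ hi, ← mul_pow, ← hue, hγν]; exact Sim.refl _)
    have h5 := (good_ofFn hA _).2 h4
    rw [List.ofFn_cons, List.ofFn_const, ← Multiset.cons_coe, Multiset.coe_replicate] at h5
    exact h5

theorem prod_fiber {κ : Type*} [Fintype κ] [DecidableEq κ] {M : Type*} [CommMonoid M] {n : ℕ}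
    (g : Fin n → κ) (f : κ → M) :
    ∏ b, f b ^ (Finset.univ.filter fun j => g j = b).card = ∏ j, f (g j) := by
  rw [← Finset.prod_fiberwise_of_maps_to' (s := Finset.univ) (t := Finset.univ) (g := g)
    (fun _ _ => Finset.mem_univ _) f]
  refine Finset.prod_congr rfl fun a _ => ?_
  rw [Finset.prod_const]

theorem sum_fiber {κ : Type*} [Fintype κ] [DecidableEq κ] {M : Type*} [AddCommMonoid M] {n : ℕ}
    (g : Fin n → κ) (f : κ → M) :
    ∑ b, (Finset.univ.filter fun j => g j = b).card • f b = ∑ j, f (g j) := by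
  rw [← Finset.sum_fiberwise_of_maps_to' (s := Finset.univ) (t := Finset.univ) (g := g)
    (fun _ _ => Finset.mem_univ _) f]
  refine Finset.sum_congr rfl fun a _ => ?_
  rw [Finset.sum_const]

/-- Words in a finite alphabet of dominated letters. -/
theorem words_fin (hA : Closed d ω up A) (hr0 : r ≠ 0) {κ : Type*} [Fintype κ] (i : κ → ℕ)
    (μ γ : κ → K) (v : κ → ι)
    (hd : ∀ b, ∃ u w : ι, Dom A a ω H (i b) (γ b) (v b) u w)
    (hP : ∀ c ∈ tateVectors q μ, P A a H r (curveWord i γ r c)) {n : ℕ} (g : Fin n → κ) (k : ℕ)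
    (hT : Sim (∏ j, μ (g j)) ((q : K) ^ k)) :
    Finsupp.single (fun j => v (g j)) 1 ∈ A n := by
  classical
  choose u w hd using hd
  let l : List (ℕ × K × ι × ι × ι) :=
    List.ofFn fun j => (i (g j), γ (g j), v (g j), u (g j), w (g j))
  have h5 := dom_words hA hr0 l (by
    intro p hp
    obtain ⟨j, rfl⟩ := List.mem_ofFn.1 hp
    exact hd (g j)) (by
    have h6 := hP (fun b => (Finset.univ.filter fun j => g j = b).card) ⟨k, by
      rw [prod_fiber g μ]; exact hT⟩
    have h7 : curveWord i γ r (fun b => (Finset.univ.filter fun j => g j = b).card) =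
        (l.map fun p => Multiset.replicate p.1 (p.2.1 * r⁻¹)).sum := by
      rw [List.map_ofFn, List.sum_ofFn, curveWord]
      have h8 := sum_fiber g fun b => Multiset.replicate (i b) (γ b * r⁻¹)
      rw [show (∑ j, ((fun p : ℕ × K × ι × ι × ι => Multiset.replicate p.1 (p.2.1 * r⁻¹)) ∘
        fun j => (i (g j), γ (g j), v (g j), u (g j), w (g j))) j) =
        ∑ j, Multiset.replicate (i (g j)) (γ (g j) * r⁻¹) from rfl, ← h8]
      refine Finset.sum_congr rfl fun b _ => ?_
      rw [Multiset.nsmul_singleton, Multiset.nsmul_replicate, mul_comm]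
    rwa [h7] at h6)
  rw [List.map_ofFn] at h5
  exact (good_ofFn hA _).1 h5

/-- Raising some of the letters. -/
theorem good_raise_list (hA : Closed d ω up A) (l : List (ι × ι)) :
    (∀ p ∈ l, p.2 = p.1 ∨ p.2 = up p.1) → ∀ s : Multiset ι,
    Good A (((l.map Prod.fst : List ι) : Multiset ι) + s) →
    Good A (((l.map Prod.snd : List ι) : Multiset ι) + s) := by
  induction l with
  | nil => intro _ s h; simpa using h
  | cons p l ih =>
    intro hl s h
    have h1 : Good A (((l.map Prod.fst : List ι) : Multiset ι) + (p.1 ::ₘ s)) := by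
      rw [Multiset.add_cons]
      rw [List.map_cons, ← Multiset.cons_coe, Multiset.cons_add] at h
      exact h
    have h2 := ih (fun x hx => hl x (by simp [hx])) _ h1
    rw [Multiset.add_cons] at h2
    rw [List.map_cons, ← Multiset.cons_coe, Multiset.cons_add]
    rcases hl p (by simp) with h3 | h3
    · rw [h3]; exact h2
    · rw [h3]; exact good_raise hA h2

end Pool.Agent.H20.TU
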