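import Pool.Agent.H20.TU.Defs

/-!
Words whose class is in the family, as multisets.
-/

namespace Pool.Agent.H20.TU

/-- A perm of lists is given by an equivalence of indices. -/
theorem perm_equiv {α : Type*} {l l' : List α} (h : l.Perm l') :
    ∃ e : Fin l.length ≃ Fin l'.length, ∀ i, l'.get (e i) = l.get i := by
  induction h with
  | nil => exact ⟨Equiv.refl _, fun i => rfl⟩
  | @cons x l l' _ ih =>
    obtain ⟨e, he⟩ := ih
    refine ⟨(finSuccEquiv l.length).trans ((Equiv.optionCongr e).trans
      (finSuccEquiv l'.length).symm), fun i => ?_⟩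
    refine Fin.cases ?_ (fun j => ?_) i
    · simp
    · simpa using he j
  | swap x y l =>
    refine ⟨Equiv.swap 0 1, fun i => ?_⟩
    refine Fin.cases ?_ (fun j => ?_) i
    · simp
    · refine Fin.cases ?_ (fun k => ?_) j
      · have : (Fin.succ 0 : Fin (l.length + 2)) = 1 := rfl
        simp
      · rw [Equiv.swap_apply_of_ne_of_ne]
        · simp
        · exact Fin.succ_ne_zero _
        · intro h
          have := Fin.succ_injective _ (show Fin.succ k.succ = Fin.succ 0 from h)
          exact Fin.succ_ne_zero _ this
  | trans _ _ ih1 ih2 =>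
    obtain ⟨e1, h1⟩ := ih1
    obtain ⟨e2, h2⟩ := ih2
    exact ⟨e1.trans e2, fun i => by simpa using (h2 (e1 i)).trans (h1 i)⟩

variable {K ι : Type*} [Field K]

theorem mul_single {m n : ℕ} (v : Fin m → ι) (w : Fin n → ι) (b c : K) :
    mul (Finsupp.single v b) (Finsupp.single w c) = Finsupp.single (Fin.append v w) (b * c) := by
  unfold mul
  rw [Finsupp.sum_single_index, Finsupp.sum_single_index]
  · simp
  · simp

theorem permute_single {n : ℕ} (σ : Equiv.Perm (Fin n)) (v : Fin n → ι) (c : K) :
    permute σ (Finsupp.single v c) = Finsupp.single (fun i => v (σ i)) c := by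
  unfold permute
  rw [Finsupp.sum_single_index]
  simp

theorem contract_single (ω : ι → ι → K) {n : ℕ} (v : Fin (n + 2) → ι) (c : K) :
    contract ω (Finsupp.single v c) =
      Finsupp.single (fun i => v i.succ.succ) (c * ω (v 0) (v 1)) := by
  unfold contract
  rw [Finsupp.sum_single_index]
  simp

theorem raise_single (up : ι → ι) {n : ℕ} (v : Fin (n + 1) → ι) (c : K) :
    raise up (Finsupp.single v c) = Finsupp.single (Fin.cons (up (v 0)) fun i => v i.succ) c := by
  unfold raise
  rw [Finsupp.sum_single_index]
  simp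

theorem frob_single (a : ι → K) {n : ℕ} (v : Fin n → ι) (c : K) :
    frob a (Finsupp.single v c) = Finsupp.single v ((∏ i, a (v i)) * c) := by
  unfold frob
  rw [Finsupp.sum_single_index]
  simp

variable {d : ι → ℕ} {ω : ι → ι → K} {up : ι → ι} {A : ∀ n, Submodule K (Tens K ι n)}

/-- The word is in the family. -/
def OnL (A : ∀ n, Submodule K (Tens K ι n)) (l : List ι) : Prop :=
  Finsupp.single l.get 1 ∈ A l.length

theorem word_congr (hA : Closed d ω up A) {m n : ℕ} (h : m = n) (e : Fin m ≃ Fin n)
    (v : Fin m → ι) (v' : Fin n → ι) (hv : ∀ i, v' (e i) = v i)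
    (hm : Finsupp.single v 1 ∈ A m) : Finsupp.single v' 1 ∈ A n := by
  subst h
  have := hA.perm _ e.symm _ hm
  rw [permute_single] at this
  convert this using 2
  funext i
  rw [← hv (e.symm i), Equiv.apply_symm_apply]

theorem onL_perm (hA : Closed d ω up A) {l l' : List ι} (h : l.Perm l') (hl : OnL A l) :
    OnL A l' := by
  obtain ⟨e, he⟩ := perm_equiv h
  exact word_congr hA h.length_eq e _ _ he hl

/-- The words with these letters, in any order, are in the family. -/
def Good (A : ∀ n, Submodule K (Tens K ι n)) (s : Multiset ι) : Prop := OnL A s.toList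

theorem good_coe (hA : Closed d ω up A) (l : List ι) :
    Good A (l : Multiset ι) ↔ OnL A l := by
  have h : (Multiset.toList (l : Multiset ι)).Perm l := by
    rw [← Multiset.coe_eq_coe, Multiset.coe_toList]
  exact ⟨fun h1 => onL_perm hA h h1, fun h1 => onL_perm hA h.symm h1⟩

theorem good_zero (hA : Closed d ω up A) : Good A (0 : Multiset ι) := by
  rw [← Multiset.coe_nil, good_coe hA]
  exact hA.one _

theorem good_add (hA : Closed d ω up A) {s t : Multiset ι} (hs : Good A s) (ht : Good A t) :
    Good A (s + t) := by
  induction s using Quotient.inductionOn with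
  | h l =>
  induction t using Quotient.inductionOn with
  | h l' =>
  have hs' : OnL A l := (good_coe hA l).1 hs
  have ht' : OnL A l' := (good_coe hA l').1 ht
  change Good A ((l : Multiset ι) + (l' : Multiset ι))
  rw [Multiset.coe_add, good_coe hA]
  have h1 := hA.prod _ _ _ hs' _ ht'
  rw [mul_single, one_mul] at h1
  refine word_congr hA (List.length_append).symm (finCongr (List.length_append).symm) _ _ ?_ h1
  intro i
  refine Fin.addCases (fun j => ?_) (fun j => ?_) i
  · simp
  · simp

theorem good_contr (hA : Closed d ω up A) {s : Multiset ι} {x y : ι}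
    (h : Good A (x ::ₘ y ::ₘ s)) (hB : ω x y ≠ 0) : Good A s := by
  induction s using Quotient.inductionOn with
  | h l =>
  have h' : Good A ((x :: y :: l : List ι) : Multiset ι) := h
  rw [good_coe hA] at h'
  have h1 := hA.contr _ _ h'
  rw [contract_single, one_mul] at h1
  have h2 := (A _).smul_mem (ω x y)⁻¹ h1
  rw [Finsupp.smul_single, smul_eq_mul] at h2
  have h3 : (ω x y)⁻¹ * ω ((x :: y :: l).get 0) ((x :: y :: l).get 1) = 1 :=
    inv_mul_cancel₀ hB
  rw [h3] at h2
  exact (good_coe hA l).2 h2

theorem good_raise (hA : Closed d ω up A) {s : Multiset ι} {x : ι} (h : Good A (x ::ₘ s)) :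
    Good A (up x ::ₘ s) := by
  induction s using Quotient.inductionOn with
  | h l =>
  have h' : Good A ((x :: l : List ι) : Multiset ι) := h
  rw [good_coe hA] at h'
  have h1 := hA.lef _ _ h'
  rw [raise_single] at h1
  refine (good_coe hA (up x :: l)).2 ?_
  refine word_congr hA rfl (Equiv.refl _) _ _ ?_ h1
  intro i
  refine Fin.cases ?_ (fun j => ?_) i
  · rfl
  · rfl

theorem good_ofFn (hA : Closed d ω up A) {n : ℕ} (v : Fin n → ι) :
    Good A ((List.ofFn v : List ι) : Multiset ι) ↔ Finsupp.single v 1 ∈ A n := by
  rw [good_coe hA]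
  constructor
  · intro h
    refine word_congr hA (List.length_ofFn) (finCongr List.length_ofFn) _ _ ?_ h
    intro i
    simp only [finCongr_apply, List.get_ofFn]
  · intro h
    refine word_congr hA (List.length_ofFn).symm (finCongr List.length_ofFn.symm) _ _ ?_ h
    intro i
    simp

end Pool.Agent.H20.TU
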